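import Pool.Agent.H30.AX.Targets
import Pool.Agent.H52.AV.INZ

/-!
# MP_70ba79_ag, board `aw_modules`: IZ3, induction over the closed subsets of the variety
-/

set_option autoImplicit false

namespace Pool.Agent.H6.AX.IZ3

open MvPolynomial SC Pool.Agent.H27.LV Pool.Agent.H30.AV Pool.Agent.H30.AW Pool.Agent.H30.AX

/-- an impossible condition -/
lemma bd3_top {k : Type} [Field k] {n q m : ℕ} {Q : Set (MvPolynomial (Fin n) k)}
    {V : ∀ (K : Type) [Field K] [Algebra k K], (Fin n → K) → Derivation k K K → Prop}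
    (h : ∀ (K : Type) [Field K] [Algebra k K] (y : Fin n → K) (D : Derivation k K K),
      ¬ V K y D) : Bd3 k n q m Q V := by
  refine ⟨1, 1, one_ne_zero, le_rfl, ?_⟩
  intro a _ K _ _ _ _ S y D _ _ _ _ hV
  exact absurd hV (h K y D)

theorem pf_IZ3 (hTA2 : T_TA2) (hIN3 : T_IN3) (hBO3 : T_BO3) : T_IZ3 := by
  intro k _ _ _ m n r q Q hm hr hQ hq
  have H : ∀ Z : Ideal (MvPolynomial (Fin n) k), Ideal.span Q ≤ Z →
      Bd3 k n q m Q fun K _ _ y D => ∀ g ∈ Z, aeval y g = 0 := by
    intro Z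
    induction Z using WellFoundedGT.induction with
    | ind Z ih =>
      intro hQZ
      by_cases htop : Z = ⊤
      · refine bd3_top fun K _ _ y D hV => ?_
        have h1 := hV 1 (by rw [htop]; trivial)
        simp at h1
      have h2 : ∀ u : MvPolynomial (Fin n) k, u ∉ Z →
          Bd3 k n q m Q fun K _ _ y D => ∀ g ∈ Z ⊔ Ideal.span {u}, aeval y g = 0 := by
        intro u huZ
        refine ih _ (lt_of_le_of_ne le_sup_left fun h3 => huZ ?_) (hQZ.trans le_sup_left)
        rw [h3]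
        exact Ideal.mem_sup_right (Ideal.mem_span_singleton_self _)
      have h4 : ∀ (K : Type) [Field K] [Algebra k K] (y : Fin n → K), (∀ g ∈ Z, aeval y g = 0) →
          ∀ u : MvPolynomial (Fin n) k, aeval y u = 0 →
          ∀ g ∈ Z ⊔ Ideal.span {u}, aeval y g = 0 := by
        intro K _ _ y hV u hu v hv
        obtain ⟨f1, hf1, f2, hf2, rfl⟩ := Submodule.mem_sup.1 hv
        obtain ⟨f3, rfl⟩ := Ideal.mem_span_singleton'.1 hf2
        rw [map_add, map_mul, hV f1 hf1, hu, mul_zero, add_zero]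
      by_cases hp : Z.IsPrime
      · obtain ⟨f, P, hf, hPp, hPh, hPs, hPt, hlift⟩ :=
          hTA2 k n r Z hp (Pool.Agent.H52.AV.trdeg_le_of_dimLE hQ Z hp hQZ)
        refine hBO3 k n q m Q _ _ _ (h2 f hf) (hIN3 k m n r q Q hm hr hQ hq P hPp hPh hPs hPt) ?_
        intro K _ _ y D _ hV
        by_cases hf0 : aeval y f = 0
        · exact Or.inl (h4 K y hV f hf0)
        · exact Or.inr (hlift K D y hV hf0)
      · obtain ⟨f, g, hfg, hfZ, hgZ⟩ : ∃ f g : MvPolynomial (Fin n) k, f * g ∈ Z ∧ f ∉ Z ∧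
            g ∉ Z := by
          by_contra hc
          push Not at hc
          exact hp ⟨htop, fun {f g} hfg => or_iff_not_imp_left.2 (hc f g hfg)⟩
        refine hBO3 k n q m Q _ _ _ (h2 f hfZ) (h2 g hgZ) ?_
        intro K _ _ y D _ hV
        have h3 := hV _ hfg
        rw [map_mul, mul_eq_zero] at h3
        rcases h3 with h3 | h3
        · exact Or.inl (h4 K y hV f h3)
        · exact Or.inr (h4 K y hV g h3)
  have H0 := H (Ideal.span Q) le_rfl
  refine hBO3 k n q m Q _ _ _ H0 H0 ?_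
  intro K _ _ y D hy _
  left
  have h1 : Ideal.span Q ≤ RingHom.ker (aeval y : MvPolynomial (Fin n) k →ₐ[k] K) :=
    Ideal.span_le.2 fun g hg => hy g hg
  intro g hg
  exact h1 hg

end Pool.Agent.H6.AX.IZ3
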